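import Mathlib
import Pool.Agent.helper92.LC.Defs

/-!
# Weighted Lê-Yomdin germs: definitions (project LW, continues project LC)

`a : Fin (m + 1) → ℕ` are positive weights, `f0` is weighted homogeneous of degree `N`; the chart is
`X (Fin.last m) = 1`.  `LC` is the case `a = 1`.
-/

set_option autoImplicit false

namespace Pool.Agent.helper92.LW

open MvPolynomial Filter Topology Asymptotics
open Pool.Agent.helper67.IF Pool.Agent.helper67.ND Pool.Agent.helper92.LC

variable {m : ℕ}

/-- The section by `X (Fin.last m) = 0` has an isolated critical point. -/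
def Section (f0 : MvPolynomial (Fin (m + 1)) ℂ) : Prop :=
  ∀ z : Fin (m + 1) → ℂ, z (Fin.last m) = 0 →
    (∀ i : Fin m, eval z (pderiv i.castSucc f0) = 0) → z = 0

/-- The chart `(η, x) ↦ (x ^ a_i Y_i(η), x ^ a_m)` of the weighted blow-up of the origin. -/
noncomputable def wchart (a : Fin (m + 1) → ℕ) (Y : Fin m → MvPolynomial (Fin m) ℂ) :
    Fin (m + 1) → MvPolynomial (Fin (m + 1)) ℂ :=
  Fin.lastCases (motive := fun _ => MvPolynomial (Fin (m + 1)) ℂ)
    (X (Fin.last m) ^ a (Fin.last m))
    fun i => X (Fin.last m) ^ a i.castSucc * rename Fin.castSucc (Y i)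

@[simp] lemma wchart_castSucc (a : Fin (m + 1) → ℕ) (Y : Fin m → MvPolynomial (Fin m) ℂ)
    (i : Fin m) :
    wchart a Y i.castSucc = X (Fin.last m) ^ a i.castSucc * rename Fin.castSucc (Y i) := by
  simp [wchart]

@[simp] lemma wchart_last (a : Fin (m + 1) → ℕ) (Y : Fin m → MvPolynomial (Fin m) ℂ) :
    wchart a Y (Fin.last m) = X (Fin.last m) ^ a (Fin.last m) := by
  simp [wchart]

/-- The weights in the chart: `M` for the variable of the exceptional divisor, `k α_i` for the
others. -/
def wwt (k M : ℕ) (α : Fin m → ℕ) : Fin (m + 1) → ℕ :=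
  Fin.lastCases (motive := fun _ => ℕ) M fun i => k * α i

end Pool.Agent.helper92.LW
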