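import Mathlib
import Pool.Agent.helper92.LC.Pull
import Pool.Agent.helper92.LW.WDefs

/-!
# Project LW, module WChart: Jacobian of the chart of the weighted blow-up

Weighted version of `piola_chart` in `Pool.Agent.helper92.LC.Pull` (copy and adapt).
-/

set_option autoImplicit false

namespace Pool.Agent.helper92.LW

open MvPolynomial
open Pool.Agent.helper67.IF Pool.Agent.helper92.LC

variable {m : ℕ}

lemma WChart_last (k : ℕ) : pderiv (Fin.last m)
    ((X (Fin.last m) : MvPolynomial (Fin (m + 1)) ℂ) ^ k) =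
      (k : MvPolynomial (Fin (m + 1)) ℂ) * X (Fin.last m) ^ (k - 1) := by
  rw [Derivation.leibniz_pow, pderiv_X_self, smul_eq_mul, mul_one, nsmul_eq_mul]

/-- The matrix of cofactors of the weighted chart. -/
noncomputable def WChart_B (a : Fin (m + 1) → ℕ) (Y : Fin m → MvPolynomial (Fin m) ℂ)
    (u : MvPolynomial (Fin m) ℂ) (C' : Fin m → Fin m → MvPolynomial (Fin m) ℂ) :
    Fin (m + 1) → Fin (m + 1) → MvPolynomial (Fin (m + 1)) ℂ :=
  Fin.lastCases (motive := fun _ => Fin (m + 1) → MvPolynomial (Fin (m + 1)) ℂ)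
    (Fin.lastCases (motive := fun _ => MvPolynomial (Fin (m + 1)) ℂ)
      (X (Fin.last m) ^ (∑ i : Fin m, a i.castSucc) * rename Fin.castSucc u)
      fun j => X (Fin.last m) ^ ((∑ i : Fin m, a i.castSucc) - 1) *
        rename Fin.castSucc (- ∑ i, (a i.castSucc : MvPolynomial (Fin m) ℂ) * (Y i * C' i j)))
    fun i => Fin.lastCases (motive := fun _ => MvPolynomial (Fin (m + 1)) ℂ) 0
      fun j => X (Fin.last m) ^ (∑ i, a i - 1 - a i.castSucc) *
        rename Fin.castSucc ((a (Fin.last m) : MvPolynomial (Fin m) ℂ) * C' i j)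

lemma WChart_ll (a : Fin (m + 1) → ℕ) (Y : Fin m → MvPolynomial (Fin m) ℂ)
    (u : MvPolynomial (Fin m) ℂ) (C' : Fin m → Fin m → MvPolynomial (Fin m) ℂ) :
    WChart_B a Y u C' (Fin.last m) (Fin.last m) =
      X (Fin.last m) ^ (∑ i : Fin m, a i.castSucc) * rename Fin.castSucc u := by
  simp [WChart_B]

lemma WChart_lc (a : Fin (m + 1) → ℕ) (Y : Fin m → MvPolynomial (Fin m) ℂ)
    (u : MvPolynomial (Fin m) ℂ) (C' : Fin m → Fin m → MvPolynomial (Fin m) ℂ) (j : Fin m) :
    WChart_B a Y u C' (Fin.last m) j.castSucc =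
      X (Fin.last m) ^ ((∑ i : Fin m, a i.castSucc) - 1) *
        rename Fin.castSucc
          (- ∑ i, (a i.castSucc : MvPolynomial (Fin m) ℂ) * (Y i * C' i j)) := by
  simp [WChart_B]

lemma WChart_cl (a : Fin (m + 1) → ℕ) (Y : Fin m → MvPolynomial (Fin m) ℂ)
    (u : MvPolynomial (Fin m) ℂ) (C' : Fin m → Fin m → MvPolynomial (Fin m) ℂ) (i : Fin m) :
    WChart_B a Y u C' i.castSucc (Fin.last m) = 0 := by
  simp [WChart_B]

lemma WChart_cc (a : Fin (m + 1) → ℕ) (Y : Fin m → MvPolynomial (Fin m) ℂ)
    (u : MvPolynomial (Fin m) ℂ) (C' : Fin m → Fin m → MvPolynomial (Fin m) ℂ) (i j : Fin m) :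
    WChart_B a Y u C' i.castSucc j.castSucc =
      X (Fin.last m) ^ (∑ i, a i - 1 - a i.castSucc) *
        rename Fin.castSucc ((a (Fin.last m) : MvPolynomial (Fin m) ℂ) * C' i j) := by
  simp [WChart_B]

/-- **The chart of the weighted blow-up.**  `Ψ = (x^(a_i) Y_i(η), x^(a_m))`, `x = X (Fin.last m)`.
PROOF.  Let `u, C` be the data of `Y` (renamed by `Fin.castSucc` below), `s = ∑ i, a i` (sum over all
`m + 1` indices), `i, j, l < m`.
`B (castSucc i) (castSucc j) = a_m x ^ (s - 1 - a_i) C_ij`, `B (castSucc i) last = 0`,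
`B last last = x ^ (s - a_m) u`, `B last (castSucc j) = - x ^ (s - a_m - 1) ∑_i a_i Y_i C_ij`
(`s - 1 - a_i ≥ 0`, `s - a_m - 1 ≥ 0` because `m ≥ 1` and all weights are positive).
`cof`: `(castSucc i, castSucc l)`: `∑_j a_m x^(s-1-a_i) C_ij x^(a_l) ∂_j Y_l = δ_il a_m x^(s-1) u`;
`(castSucc i, last)`: `0`; `(last, castSucc l)`: `x^(s-a_m) u a_l x^(a_l-1) Y_l -
∑_j x^(s-a_m-1) ∑_i a_i Y_i C_ij x^(a_l) ∂_j Y_l = 0`; `(last, last)`: `x^(s-a_m) u a_m x^(a_m-1)`.
`div`: row `castSucc i`: `∑_j ∂_j C_ij = 0`; row `last`: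
`(s - a_m) x^(s-a_m-1) u - x^(s-a_m-1) ∑_i a_i ∑_j (∂_j Y_i) C_ij - ... = (s - a_m - ∑_{i<m} a_i) ... = 0`. -/
theorem piola_wchart (hm : 1 ≤ m) {a : Fin (m + 1) → ℕ} (ha : ∀ i, 1 ≤ a i)
    {Y : Fin m → MvPolynomial (Fin m) ℂ}
    {u : MvPolynomial (Fin m) ℂ} {C' : Fin m → Fin m → MvPolynomial (Fin m) ℂ}
    (h : Piola Y u C') :
    ∃ B, Piola (wchart a Y)
      (C (a (Fin.last m) : ℂ) * X (Fin.last m) ^ (∑ i, a i - 1) * rename Fin.castSucc u) B := by
  classical
  have hC : (C (a (Fin.last m) : ℂ) : MvPolynomial (Fin (m + 1)) ℂ) =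
      (a (Fin.last m) : MvPolynomial (Fin (m + 1)) ℂ) := map_natCast C _
  rw [hC]
  have hs : ∑ i, a i = (∑ i : Fin m, a i.castSucc) + a (Fin.last m) := Fin.sum_univ_castSucc a
  have hle : ∀ i : Fin m, a i.castSucc ≤ ∑ i : Fin m, a i.castSucc := fun i =>
    Finset.single_le_sum (f := fun i : Fin m => a i.castSucc) (fun _ _ => Nat.zero_le _)
      (Finset.mem_univ i)
  have hlast := ha (Fin.last m)
  have hσ : 1 ≤ ∑ i : Fin m, a i.castSucc := (ha _).trans (hle ⟨0, hm⟩)
  have hY : ∀ j l : Fin m, pderiv j.castSucc (wchart a Y l.castSucc) =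
      X (Fin.last m) ^ a l.castSucc * rename Fin.castSucc (pderiv j (Y l)) := by
    intro j l
    rw [wchart_castSucc, pull_pderiv_xmul]
  have hYl : ∀ l : Fin m, pderiv (Fin.last m) (wchart a Y l.castSucc) =
      (a l.castSucc : MvPolynomial (Fin (m + 1)) ℂ) * X (Fin.last m) ^ (a l.castSucc - 1) *
        rename Fin.castSucc (Y l) := by
    intro l
    rw [wchart_castSucc, Derivation.leibniz, pull_pderiv_last, smul_zero, zero_add, WChart_last,
      smul_eq_mul, mul_comm]
  have hx : ∀ j : Fin m, pderiv j.castSucc (wchart a Y (Fin.last m)) = 0 := by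
    intro j
    rw [wchart_last, pull_pderiv_x]
  refine ⟨WChart_B a Y u C', ?_, ?_⟩
  · intro i l
    rw [Fin.sum_univ_castSucc]
    refine Fin.lastCases ?_ (fun i => ?_) i
    · refine Fin.lastCases ?_ (fun l => ?_) l
      · rw [if_pos rfl, WChart_ll, wchart_last, WChart_last]
        rw [Finset.sum_eq_zero fun j _ => by rw [pull_pderiv_x, mul_zero], zero_add]
        have h1 : ∑ i, a i - 1 = (∑ i : Fin m, a i.castSucc) + (a (Fin.last m) - 1) := by omega
        rw [h1, pow_add]
        ring
      · rw [if_neg (Fin.castSucc_lt_last l).ne', WChart_ll, hYl]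
        have h1 : ∀ j : Fin m, WChart_B a Y u C' (Fin.last m) j.castSucc *
            pderiv j.castSucc (wchart a Y l.castSucc) =
            X (Fin.last m) ^ ((∑ i : Fin m, a i.castSucc) - 1 + a l.castSucc) *
              rename Fin.castSucc (- ∑ i, ((a i.castSucc : MvPolynomial (Fin m) ℂ) * Y i) *
                (C' i j * pderiv j (Y l))) := by
          intro j
          have h2 : (- ∑ i, ((a i.castSucc : MvPolynomial (Fin m) ℂ) * Y i) *
              (C' i j * pderiv j (Y l)) : MvPolynomial (Fin m) ℂ) =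
              (- ∑ i, (a i.castSucc : MvPolynomial (Fin m) ℂ) * (Y i * C' i j)) *
                pderiv j (Y l) := by
            rw [neg_mul, Finset.sum_mul]
            congr 1
            exact Finset.sum_congr rfl fun i _ => by ring
          rw [WChart_lc, hY, h2, map_mul, pow_add]
          ring
        rw [Finset.sum_congr rfl fun j _ => h1 j, ← Finset.mul_sum, ← map_sum,
          Finset.sum_neg_distrib, Finset.sum_comm]
        have h3 : ∀ i : Fin m, ∑ j, ((a i.castSucc : MvPolynomial (Fin m) ℂ) * Y i) *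
            (C' i j * pderiv j (Y l)) =
            if i = l then ((a i.castSucc : MvPolynomial (Fin m) ℂ) * Y i) * u else 0 := by
          intro i
          rw [← Finset.mul_sum, h.cof i l]
          split_ifs <;> simp
        have h4 : (∑ i : Fin m, a i.castSucc) - 1 + a l.castSucc =
            (∑ i : Fin m, a i.castSucc) + (a l.castSucc - 1) := by
          have := ha l.castSucc
          omega
        rw [Finset.sum_congr rfl fun i _ => h3 i, Finset.sum_ite_eq', if_pos (Finset.mem_univ _),
          map_neg, map_mul, map_mul, map_natCast, h4, pow_add]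
        ring
    · rw [WChart_cl, zero_mul, add_zero]
      refine Fin.lastCases ?_ (fun l => ?_) l
      · rw [if_neg (Fin.castSucc_lt_last i).ne]
        exact Finset.sum_eq_zero fun j _ => by rw [hx j, mul_zero]
      · have h1 : ∀ j : Fin m, WChart_B a Y u C' i.castSucc j.castSucc *
            pderiv j.castSucc (wchart a Y l.castSucc) =
            X (Fin.last m) ^ (∑ i, a i - 1 - a i.castSucc + a l.castSucc) *
              ((a (Fin.last m) : MvPolynomial (Fin (m + 1)) ℂ) *
                rename Fin.castSucc (C' i j * pderiv j (Y l))) := by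
          intro j
          rw [WChart_cc, hY, map_mul, map_mul, map_natCast, pow_add]
          ring
        rw [Finset.sum_congr rfl fun j _ => h1 j, ← Finset.mul_sum, ← Finset.mul_sum, ← map_sum,
          h.cof i l]
        by_cases hil : i = l
        · subst hil
          rw [if_pos rfl, if_pos rfl]
          have h4 : ∑ i, a i - 1 - a i.castSucc + a i.castSucc = ∑ i, a i - 1 := by
            have := hle i
            omega
          rw [h4]
          ring
        · rw [if_neg hil, if_neg (fun hc => hil (Fin.castSucc_injective _ hc)), map_zero, mul_zero,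
            mul_zero]
  · intro i
    rw [Fin.sum_univ_castSucc]
    refine Fin.lastCases ?_ (fun i => ?_) i
    · have h1 : ∀ j : Fin m, pderiv j.castSucc (WChart_B a Y u C' (Fin.last m) j.castSucc) =
          X (Fin.last m) ^ ((∑ i : Fin m, a i.castSucc) - 1) * rename Fin.castSucc
            (- ∑ i, (a i.castSucc : MvPolynomial (Fin m) ℂ) *
              (C' i j * pderiv j (Y i) + Y i * pderiv j (C' i j))) := by
        intro j
        rw [WChart_lc, pull_pderiv_xmul, map_neg, map_sum]
        congr 3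
        refine Finset.sum_congr rfl fun i _ => ?_
        rw [Derivation.leibniz, Derivation.leibniz, Derivation.map_natCast]
        simp only [smul_eq_mul]
        ring
      rw [Finset.sum_congr rfl fun j _ => h1 j, ← Finset.mul_sum, ← map_sum,
        Finset.sum_neg_distrib, Finset.sum_comm]
      have h3 : ∀ i : Fin m, ∑ j, (a i.castSucc : MvPolynomial (Fin m) ℂ) *
          (C' i j * pderiv j (Y i) + Y i * pderiv j (C' i j)) =
          (a i.castSucc : MvPolynomial (Fin m) ℂ) * u := by
        intro i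
        rw [← Finset.mul_sum, Finset.sum_add_distrib, ← Finset.mul_sum, h.cof i i, h.div i,
          if_pos rfl, mul_zero, add_zero]
      rw [Finset.sum_congr rfl fun i _ => h3 i, ← Finset.sum_mul, ← Nat.cast_sum, WChart_ll,
        Derivation.leibniz, pull_pderiv_last, smul_zero, zero_add, WChart_last, map_neg, map_mul,
        map_natCast, smul_eq_mul]
      ring
    · rw [WChart_cl, map_zero, add_zero]
      have h1 : ∀ j : Fin m, pderiv j.castSucc (WChart_B a Y u C' i.castSucc j.castSucc) =
          X (Fin.last m) ^ (∑ i, a i - 1 - a i.castSucc) *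
            ((a (Fin.last m) : MvPolynomial (Fin (m + 1)) ℂ) *
              rename Fin.castSucc (pderiv j (C' i j))) := by
        intro j
        rw [WChart_cc, pull_pderiv_xmul, Derivation.leibniz, Derivation.map_natCast, smul_zero,
          add_zero, smul_eq_mul, map_mul, map_natCast]
      rw [Finset.sum_congr rfl fun j _ => h1 j, ← Finset.mul_sum, ← Finset.mul_sum, ← map_sum,
        h.div i, map_zero, mul_zero, mul_zero]

end Pool.Agent.helper92.LW
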