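import Mathlib
import Pool.Agent.helper92.LC.PointRoot
import Pool.Agent.helper92.LW.WChart
import Pool.Agent.helper92.LW.WChartInit

/-!
# Project LW, module WPointRoot: the root attached to a singular point, weighted version

Adapt `Pool.Agent.helper92.LC.PointRoot`.
-/

set_option autoImplicit false

namespace Pool.Agent.helper92.LW

open MvPolynomial Filter Topology Asymptotics
open Pool.Agent.helper67.ND Pool.Agent.helper67.IF Pool.Agent.helper92.LC

variable {m : ℕ}

lemma WPointRoot_wwt_last {k M : ℕ} {α : Fin m → ℕ} : wwt k M α (Fin.last m) = M := by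
  simp [wwt]

lemma WPointRoot_wwt_castSucc {k M : ℕ} {α : Fin m → ℕ} (i : Fin m) :
    wwt k M α i.castSucc = k * α i := by
  simp [wwt]

lemma WPointRoot_wt {k M : ℕ} (hk : 1 ≤ k) (hM : 1 ≤ M) {α : Fin m → ℕ} (hα : ∀ i, 1 ≤ α i) :
    ∀ i, 1 ≤ wwt k M α i := by
  intro i
  refine Fin.lastCases ?_ (fun i => ?_) i
  · rw [WPointRoot_wwt_last]
    exact hM
  · rw [WPointRoot_wwt_castSucc]
    exact Nat.mul_pos hk (hα i)

lemma WPointRoot_Xpow {k M : ℕ} {α : Fin m → ℕ} (r : ℕ) :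
    (X (Fin.last m) ^ r : MvPolynomial (Fin (m + 1)) ℂ).IsWeightedHomogeneous (wwt k M α)
      (r * M) := by
  have h1 := (isWeightedHomogeneous_X ℂ (wwt k M α) (Fin.last m)).pow r
  rw [WPointRoot_wwt_last, smul_eq_mul] at h1
  exact h1

/-- **The root of a singular point `(q, 1)`.**
PROOF.  As `LC.point_root` with `wchart a (Y + q)`, `J = a_m x^(s-1) rename u`, `s = ∑ i, a i`,
`J0 = C (a_m u(0)) x^(s-1)` of weight `r = (s - 1) M`, `F0 = x^N (rename g + κ x^k)`, `susp_at` with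
`c = N`, `p = k`, `m := M`, `r := s - 1` (`hex` is its hypothesis, `(s - 1) + 1 = s`), and
`initial_form_map`: `- ((s - 1) M + M + k ∑ α_i) / ((N + k) M)`. -/
theorem wpoint_root (hm : 1 ≤ m) {a : Fin (m + 1) → ℕ} (ha : ∀ i, 1 ≤ a i) {N k : ℕ} (hk : 1 ≤ k)
    {f0 h : MvPolynomial (Fin (m + 1)) ℂ}
    (hf0 : f0.IsWeightedHomogeneous a N) (hh : h.IsWeightedHomogeneous a (N + k))
    {f : (Fin (m + 1) → ℂ) → ℂ} (hf : AnalyticAt ℂ f 0)
    (hO : ∀ z : Fin (m + 1) → ℂ,
      (fun t : ℂ => f (fun i => t ^ a i * z i) - (t ^ N * eval z f0 + t ^ (N + k) * eval z h))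
        =O[𝓝 0] (fun t : ℂ => ‖t‖ ^ (N + k + 1)))
    {q : Fin m → ℂ} {α : Fin m → ℕ} {M : ℕ} {g : MvPolynomial (Fin m) ℂ}
    (hW : WH (dh f0) q α M g) (hq : eval (pt q) h ≠ 0)
    (hex : ∀ j : ℕ, 1 ≤ j → (∑ i, a i) * M ≠ N * (∑ i, α i) + j * ((N + k) * M))
    {b : Polynomial ℂ} (hb : IsBernstein f b) :
    b.eval (-(((∑ i, a i) * M + k * ∑ i, α i : ℕ) : ℂ) / ((N + k) * M : ℕ)) = 0 := by
  have hM : 1 ≤ M := by
    have := weight_lt hW.pos hW.homog hW.crit (⟨0, hm⟩ : Fin m)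
    omega
  obtain ⟨s, hs⟩ : ∃ s, ∑ i, a i = s + 1 := by
    have h1 : 1 ≤ ∑ i, a i := by
      have h2 := Finset.single_le_sum (f := a) (fun i _ => Nat.zero_le _)
        (Finset.mem_univ (Fin.last m))
      exact (ha _).trans h2
    exact ⟨∑ i, a i - 1, by omega⟩
  obtain ⟨Y, Z, hJ⟩ := hW.jets (M + 2)
  have hu0 := jets_det (by omega : 2 ≤ M + 2) hJ
  set u := (jacM Y).det with hu
  have hune : u ≠ 0 := by
    intro h0
    rw [h0, map_zero] at hu0
    exact hu0 rfl
  have hjac : jacM (fun j => Y j + C (q j)) = jacM Y := by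
    ext1 i j
    simp only [jacM, Matrix.of_apply, map_add, pderiv_C, add_zero]
  have hP1 := piola (fun j => Y j + C (q j)) (by rw [hjac]; exact hune)
  rw [hjac, ← hu] at hP1
  obtain ⟨B, hB⟩ := piola_wchart hm ha hP1
  rw [hs, Nat.add_sub_cancel] at hB
  have hwt := WPointRoot_wt hk hM hW.pos
  set κ := eval (pt q) h with hκ
  have hF0 := wwt_homog (k := k) (N := N) hW.homog κ
  have hF00 : (X (Fin.last m) ^ N * (rename Fin.castSucc g + C κ * X (Fin.last m) ^ k) :
      MvPolynomial (Fin (m + 1)) ℂ) ≠ 0 := by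
    intro h0
    have h1 := congrArg (eval (pt (0 : Fin m → ℂ))) h0
    have h2 : eval (pt (0 : Fin m → ℂ)) (rename Fin.castSucc g) = 0 := by
      rw [eval_rename]
      have h3 : pt (0 : Fin m → ℂ) ∘ Fin.castSucc = 0 := by
        funext i
        simp
      rw [h3]
      exact PointRoot_eval_zero hM hW.homog
    rw [map_mul, map_add, map_mul, map_pow, map_pow, eval_X, eval_C, pt_last, one_pow, one_pow,
      h2, one_mul, zero_add, mul_one, map_zero] at h1
    exact hq h1
  have hin := wchart_init ha hk hf0 hh hf hO hJ.Y0 hW.pos hM hW.homog (hJ.FY.mono (by omega))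
  rw [← hκ] at hin
  obtain ⟨G, hG, hG1⟩ := susp_at (e1 := (Fin.castSucc : Fin m → Fin (m + 1))) (z := Fin.last m)
    ⟨Fin.castSucc_injective m, fun _ _ _ => rfl, fun i _ h =>
      absurd h (Fin.castSucc_lt_last i).ne, fun r =>
      Fin.lastCases (Or.inr ⟨(), rfl⟩) (fun i => Or.inl ⟨i, rfl⟩) r⟩
    (hasStokes_iso hW.pos hW.homog hW.crit) hM hW.homog N k hk κ hq s (by
      intro j hj
      rw [← hs]
      exact hex j hj)
  set am : ℂ := (a (Fin.last m) : ℂ) with ham
  have ham0 : am ≠ 0 := by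
    have h1 := ha (Fin.last m)
    rw [ham]
    exact_mod_cast (by omega : a (Fin.last m) ≠ 0)
  have hJ0 : (C (am * eval 0 u) * X (Fin.last m) ^ s :
      MvPolynomial (Fin (m + 1)) ℂ).IsWeightedHomogeneous (wwt k M α) (s * M) := by
    have h1 := (isWeightedHomogeneous_C (wwt k M α) (am * eval 0 u)).mul
      (WPointRoot_Xpow (m := m) (k := k) (M := M) (α := α) s)
    rwa [zero_add] at h1
  have hJJ : Ge (wwt k M α) (s * M + 1)
      (C am * X (Fin.last m) ^ s * rename Fin.castSucc u -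
        C (am * eval 0 u) * X (Fin.last m) ^ s) := by
    have h1 : (C am * X (Fin.last m) ^ s * rename Fin.castSucc u -
        C (am * eval 0 u) * X (Fin.last m) ^ s : MvPolynomial (Fin (m + 1)) ℂ) =
        X (Fin.last m) ^ s * rename Fin.castSucc (C am * (u - C (eval 0 u))) := by
      have h7 : (rename Fin.castSucc (C am * (u - C (eval 0 u))) : MvPolynomial (Fin (m + 1)) ℂ) =
          C am * (rename Fin.castSucc u - C (eval 0 u)) := by
        simp only [map_mul, map_sub, rename_C]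
      rw [h7, C_mul]
      ring
    rw [h1]
    refine (Ge.of_homog (WPointRoot_Xpow s)).mul (PointRoot_ge hwt ?_)
    have h2 : coeff 0 (rename Fin.castSucc (C am * (u - C (eval 0 u))) :
        MvPolynomial (Fin (m + 1)) ℂ) =
        constantCoeff (rename Fin.castSucc (C am * (u - C (eval 0 u)))) :=
      rfl
    rw [h2, constantCoeff_rename, map_mul, map_sub, constantCoeff_C, constantCoeff_C,
      ← eval_zero]
    have h3 : (eval 0 u - eval 0 u : ℂ) = 0 := sub_self _
    rw [show ((eval (0 : Fin m → ℂ)) u - (eval (0 : Fin m → ℂ)) u : ℂ) = 0 from h3, mul_zero]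
  have hX : Ge (wwt k M α) 1 (X (Fin.last m) : MvPolynomial (Fin (m + 1)) ℂ) := by
    have h1 := Ge.of_homog (WPointRoot_Xpow (m := m) (k := k) (M := M) (α := α) 1)
    rw [pow_one, one_mul] at h1
    exact h1.mono hM
  have hXp : ∀ e : ℕ, 1 ≤ e →
      Ge (wwt k M α) 1 (X (Fin.last m) ^ e : MvPolynomial (Fin (m + 1)) ℂ) := by
    intro e he
    have h1 := Ge.of_homog (WPointRoot_Xpow (m := m) (k := k) (M := M) (α := α) e)
    exact h1.mono (Nat.mul_pos he hM)
  have hΨ : ∀ i, Ge (wwt k M α) 1 (wchart a (fun j => Y j + C (q j)) i) := by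
    intro i
    refine Fin.lastCases ?_ (fun i => ?_) i
    · rw [wchart_last]
      exact hXp _ (ha _)
    · rw [wchart_castSucc]
      exact ((hXp _ (ha _)).mul (Ge.zero _)).mono (by omega)
  have hGJ : G (C (am * eval 0 u) * X (Fin.last m) ^ s) ≠ 0 := by
    rw [← smul_eq_C_mul, map_smul, smul_eq_mul]
    exact mul_ne_zero (mul_ne_zero ham0 hu0) hG1
  have hdN : 1 ≤ (N + k) * M := Nat.mul_pos (by omega) hM
  have hfin := initial_form_map (by omega : 1 ≤ m + 1) hwt hdN hf hB hΨ hF0 hF00 hin hJ0 hJJ hG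
    hGJ hb
  rw [Fin.sum_univ_castSucc] at hfin
  have h5 : ((s * M : ℕ) : ℂ) + (∑ i : Fin m, (wwt k M α i.castSucc : ℂ) +
      (wwt k M α (Fin.last m) : ℂ)) = (((∑ i, a i) * M + k * ∑ i, α i : ℕ) : ℂ) := by
    rw [hs]
    simp only [WPointRoot_wwt_castSucc, WPointRoot_wwt_last]
    push_cast
    rw [Finset.mul_sum]
    ring
  rw [h5] at hfin
  exact hfin

end Pool.Agent.helper92.LW
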