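import Mathlib
import Pool.Agent.helper92.LC.Cone
import Pool.Agent.helper92.LW.WDefs

/-!
# Project LW, module WCone: syzygies of a weighted homogeneous polynomial with an isolated section

(proofs: helper41)

Weighted version of `syz_first` and `kos_of_last` in `Pool.Agent.helper92.LC.Cone` (copy and adapt;
`last_regular`, `last_pow_regular` there need no homogeneity and can be cited).
-/

set_option autoImplicit false

namespace Pool.Agent.helper92.LW

open MvPolynomial
open Pool.Agent.helper67.IF Pool.Agent.helper92.LC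

variable {m : ℕ}

/-- A weighted homogeneous polynomial is its own component. -/
private theorem WCone_self {n : ℕ} {a : Fin n → ℕ} {e : ℕ} {φ : MvPolynomial (Fin n) ℂ}
    (h : φ.IsWeightedHomogeneous a e) : cmp a e φ = φ :=
  h.weightedHomogeneousComponent_same

/-- Components of products of weight `e = u + v`. -/
private theorem WCone_comp {n : ℕ} {a : Fin n → ℕ} {e u v : ℕ} (he : u + v = e)
    (φ ψ : MvPolynomial (Fin n) ℂ) (hψ : ψ.IsWeightedHomogeneous a v) :
    cmp a e (φ * ψ) = cmp a u φ * ψ := by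
  rw [← he]
  exact cmp_mul_homog u v φ ψ hψ

/-- The partial derivatives are weighted homogeneous. -/
private theorem WCone_pderiv {a : Fin (m + 1) → ℕ} {N : ℕ} (haN : ∀ i, a i ≤ N)
    {f0 : MvPolynomial (Fin (m + 1)) ℂ} (hf0 : f0.IsWeightedHomogeneous a N) (i : Fin (m + 1)) :
    (pderiv i f0).IsWeightedHomogeneous a (N - a i) :=
  hf0.pderiv (Nat.sub_add_cancel (haN i))

/-- Weighted homogeneous relations between `∂_i f0`, `i < m`, of weight `j N`, `j ≥ 1`, are Koszul.
PROOF.  As `LC.syz_first`: let `p` be larger than `j N + ∑ a_i`; the polynomials `∂_i f0` (`i < m`) and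
`X_m ^ p` have only the common zero `0`, so by `LC.syz_koszul` `h_i = ∑_{l<m} b_il ∂_l f0 + b_im X_m ^ p`; take the
components of weight `j N + a_i`: the last term has none (all its monomials have weight `≥ p`), and
`∂_l f0` is homogeneous of weight `N - a_l`, `j N + a_i = (j N + a_i + a_l - N) + (N - a_l)`, so
`h_i = ∑_l cmp a (j N + a_i + a_l - N) (b_il) ∂_l f0` (`cmp_mul_homog`). -/
theorem wsyz_first {a : Fin (m + 1) → ℕ} (ha : ∀ i, 1 ≤ a i) {N : ℕ} (haN : ∀ i, a i ≤ N)
    {f0 : MvPolynomial (Fin (m + 1)) ℂ} (hf0 : f0.IsWeightedHomogeneous a N) (hsec : Section f0)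
    {j : ℕ} (hj : 1 ≤ j) (h : Fin m → MvPolynomial (Fin (m + 1)) ℂ)
    (hh : ∀ i, (h i).IsWeightedHomogeneous a (j * N + a i.castSucc))
    (hs : ∑ i, h i * pderiv i.castSucc f0 = 0) :
    IsKos (fun i : Fin m => pderiv i.castSucc f0) h := by
  obtain ⟨p, hp⟩ : ∃ p : ℕ, ∀ i : Fin m, j * N + a i.castSucc < p :=
    ⟨(∑ i : Fin m, (j * N + a i.castSucc)) + 1, fun i => Nat.lt_succ_of_le
      (Finset.single_le_sum (f := fun i : Fin m => j * N + a i.castSucc)
        (fun _ _ => Nat.zero_le _) (Finset.mem_univ i))⟩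
  have h1 := syz_koszul _ (Cone_zero (f0 := f0) hsec (p := p + 1) (Nat.succ_pos p))
    (Fin.lastCases (motive := fun _ => MvPolynomial (Fin (m + 1)) ℂ) 0 h) (by
      rw [Fin.sum_univ_castSucc]
      simp only [Fin.lastCases_castSucc, Fin.lastCases_last]
      rw [hs]
      ring)
  obtain ⟨b, hb, hbb⟩ := h1
  have hXh : ((X (Fin.last m) : MvPolynomial (Fin (m + 1)) ℂ) ^ (p + 1)).IsWeightedHomogeneous a
      ((p + 1) • a (Fin.last m)) :=
    (isWeightedHomogeneous_X ℂ a (Fin.last m)).pow (p + 1)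
  have hX : ∀ (i : Fin m) (φ : MvPolynomial (Fin (m + 1)) ℂ),
      cmp a (j * N + a i.castSucc) (φ * X (Fin.last m) ^ (p + 1)) = 0 := by
    intro i φ
    have h2 : Ge a (0 + (p + 1) • a (Fin.last m)) (φ * X (Fin.last m) ^ (p + 1)) :=
      (Ge.zero φ).mul (Ge.of_homog hXh)
    refine h2.cmp_eq_zero ?_
    have h3 := hp i
    have h4 : p + 1 ≤ (p + 1) * a (Fin.last m) := Nat.le_mul_of_pos_right _ (ha _)
    rw [smul_eq_mul]
    omega
  have hjN : N ≤ j * N := Nat.le_mul_of_pos_left _ hj
  refine ⟨fun i l => cmp a (j * N + a i.castSucc + a l.castSucc - N)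
    (b i.castSucc l.castSucc), fun i l => ?_, fun i => ?_⟩
  · show cmp a (j * N + a i.castSucc + a l.castSucc - N) (b i.castSucc l.castSucc) =
      - cmp a (j * N + a l.castSucc + a i.castSucc - N) (b l.castSucc i.castSucc)
    rw [hb i.castSucc l.castSucc, map_neg, add_right_comm]
  · have h3 := hbb i.castSucc
    rw [Fin.sum_univ_castSucc] at h3
    simp only [Fin.lastCases_castSucc, Fin.lastCases_last] at h3
    have h4 := congrArg (cmp a (j * N + a i.castSucc)) h3
    rw [WCone_self (hh i), map_add, map_sum, hX, add_zero] at h4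
    rw [h4]
    refine Finset.sum_congr rfl fun l _ => ?_
    have h5 := haN l.castSucc
    exact WCone_comp (by omega) _ _ (WCone_pderiv haN hf0 l.castSucc)

/-- **A vector field of weight `j N`, `j ≥ 1`, killing `f0` is Koszul as soon as its last component
is in `I0`.**
PROOF.  As `LC.kos_of_last`: `h_m = ∑_{l<m} γ_l ∂_l f0` with `γ_l` homogeneous of weight
`j N + a_m - (N - a_l)`, `h'_i = h_i + γ_i ∂_m f0` is homogeneous of weight `j N + a_i`. -/
theorem wkos_of_last {a : Fin (m + 1) → ℕ} (ha : ∀ i, 1 ≤ a i) {N : ℕ} (haN : ∀ i, a i ≤ N)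
    {f0 : MvPolynomial (Fin (m + 1)) ℂ} (hf0 : f0.IsWeightedHomogeneous a N) (hsec : Section f0)
    {j : ℕ} (hj : 1 ≤ j) (h : Fin (m + 1) → MvPolynomial (Fin (m + 1)) ℂ)
    (hh : ∀ i, (h i).IsWeightedHomogeneous a (j * N + a i)) (hs : ∑ i, h i * pderiv i f0 = 0)
    (hl : h (Fin.last m) ∈ I0 f0) : IsKos (fun i => pderiv i f0) h := by
  have hjN : N ≤ j * N := Nat.le_mul_of_pos_left _ hj
  obtain ⟨γ0, hγ0⟩ := Cone_mem hl
  set γ : Fin m → MvPolynomial (Fin (m + 1)) ℂ :=
    fun l => cmp a (j * N + a (Fin.last m) + a l.castSucc - N) (γ0 l) with hγdef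
  have hγh : ∀ l, (γ l).IsWeightedHomogeneous a (j * N + a (Fin.last m) + a l.castSucc - N) :=
    fun l => weightedHomogeneousComponent_isWeightedHomogeneous _ _
  have hγ : h (Fin.last m) = ∑ l : Fin m, γ l * pderiv l.castSucc f0 := by
    have h4 := congrArg (cmp a (j * N + a (Fin.last m))) hγ0
    rw [WCone_self (hh _), map_sum] at h4
    rw [h4]
    refine Finset.sum_congr rfl fun l _ => ?_
    have h5 := haN l.castSucc
    exact WCone_comp (by omega) _ _ (WCone_pderiv haN hf0 l.castSucc)
  have h1 := wsyz_first ha haN hf0 hsec hj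
    (fun i : Fin m => h i.castSucc + γ i * pderiv (Fin.last m) f0)
    (fun i => by
      refine (hh i.castSucc).add ?_
      have h3 := (hγh i).mul (WCone_pderiv haN hf0 (Fin.last m))
      have h5 := haN (Fin.last m)
      have h6 : j * N + a (Fin.last m) + a i.castSucc - N + (N - a (Fin.last m)) =
          j * N + a i.castSucc := by omega
      rw [h6] at h3
      exact h3) (by
      rw [Fin.sum_univ_castSucc, hγ, Finset.sum_mul] at hs
      rw [← hs, ← Finset.sum_add_distrib]
      exact Finset.sum_congr rfl fun i _ => by ring)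
  obtain ⟨b, hb, hbb⟩ := h1
  refine ⟨fun i => Fin.lastCases
      (motive := fun _ => Fin (m + 1) → MvPolynomial (Fin (m + 1)) ℂ)
      (Fin.lastCases (motive := fun _ => MvPolynomial (Fin (m + 1)) ℂ) 0 γ)
      (fun i' => Fin.lastCases (motive := fun _ => MvPolynomial (Fin (m + 1)) ℂ) (-γ i') (b i')) i,
    ?_, ?_⟩
  · intro i l
    refine Fin.lastCases ?_ (fun i => ?_) i <;> refine Fin.lastCases ?_ (fun l => ?_) l
    · simp
    · simp
    · simp
    · simpa using hb i l
  · intro i
    rw [Fin.sum_univ_castSucc]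
    refine Fin.lastCases ?_ (fun i => ?_) i
    · simp only [Fin.lastCases_castSucc, Fin.lastCases_last, zero_mul, add_zero]
      exact hγ
    · simp only [Fin.lastCases_castSucc, Fin.lastCases_last]
      rw [← hbb i]
      ring

end Pool.Agent.helper92.LW
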