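import Mathlib
import Pool.Agent.helper92.LC.Dehom
import Pool.Agent.helper92.LW.WDefs

/-!
# Project LW, module WDehom: dehomogenisation, weighted version of `Pool.Agent.helper92.LC.Dehom`

(`LC.pderiv_dh` needs no homogeneity and can be cited; `LC.last_pow_regular` as well.)
-/

set_option autoImplicit false

namespace Pool.Agent.helper92.LW

open MvPolynomial
open Pool.Agent.helper67.IF Pool.Agent.helper92.LC

variable {m : ℕ}

/-- Euler's formula on the chart:
`a_m dh (∂_m φ) = e dh φ - ∑ a_i y_i ∂_i (dh φ)` for `φ` of weight `e`. -/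
theorem wdh_pderiv_last {a : Fin (m + 1) → ℕ} {e : ℕ} {φ : MvPolynomial (Fin (m + 1)) ℂ}
    (h : φ.IsWeightedHomogeneous a e) :
    (a (Fin.last m) : ℂ) • dh (pderiv (Fin.last m) φ) =
      (e : ℂ) • dh φ - ∑ i : Fin m, (a i.castSucc : ℂ) • (X i * pderiv i (dh φ)) := by
  have h1 := congrArg dh h.sum_weight_X_mul_pderiv
  rw [Fin.sum_univ_castSucc, map_add, map_sum, map_nsmul, map_mul, dh_X_last, one_mul,
    map_nsmul] at h1
  have h2 : ∑ i : Fin m, dh (a i.castSucc • (X i.castSucc * pderiv i.castSucc φ)) =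
      ∑ i : Fin m, (a i.castSucc : ℂ) • (X i * pderiv i (dh φ)) := by
    refine Finset.sum_congr rfl fun i _ => ?_
    rw [map_nsmul, map_mul, dh_X_castSucc, pderiv_dh, Nat.cast_smul_eq_nsmul]
  rw [h2, ← Nat.cast_smul_eq_nsmul ℂ, ← Nat.cast_smul_eq_nsmul ℂ] at h1
  rw [← h1, add_sub_cancel_left]

/-- `dh` maps the Jacobian ideal of `f0` into the ideal `(∂_i F, F)`, `F = dh f0`. -/
theorem wdh_jac {a : Fin (m + 1) → ℕ} (ha : 1 ≤ a (Fin.last m)) {N : ℕ}
    {f0 : MvPolynomial (Fin (m + 1)) ℂ} (hf0 : f0.IsWeightedHomogeneous a N)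
    {φ : MvPolynomial (Fin (m + 1)) ℂ} (h : φ ∈ jac f0) :
    dh φ ∈ jac (dh f0) ⊔ Ideal.span {dh f0} := by
  have ha' : (a (Fin.last m) : ℂ) ≠ 0 := by
    rw [Nat.cast_ne_zero]; omega
  have h1 : jac f0 ≤ Ideal.comap dh.toRingHom (jac (dh f0) ⊔ Ideal.span {dh f0}) := by
    unfold jac
    rw [Ideal.span_le]
    rintro _ ⟨i, rfl⟩
    rw [SetLike.mem_coe, Ideal.mem_comap]
    change dh (pderiv i f0) ∈ _
    have hd : ∀ i, pderiv i (dh f0) ∈ Ideal.span (Set.range fun i => pderiv i (dh f0)) :=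
      fun i => Ideal.subset_span ⟨i, rfl⟩
    refine Fin.lastCases ?_ (fun i => ?_) i
    · have h2 : dh (pderiv (Fin.last m) f0) =
          C (a (Fin.last m) : ℂ)⁻¹ * ((a (Fin.last m) : ℂ) • dh (pderiv (Fin.last m) f0)) := by
        rw [smul_eq_C_mul, ← mul_assoc, ← C_mul, inv_mul_cancel₀ ha', C_1, one_mul]
      rw [h2, wdh_pderiv_last hf0]
      refine Ideal.mul_mem_left _ _ (Ideal.sub_mem _ ?_ (Ideal.sum_mem _ fun i _ => ?_))
      · refine Ideal.mem_sup_right ?_
        rw [smul_eq_C_mul]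
        exact Ideal.mul_mem_left _ _ (Ideal.mem_span_singleton_self _)
      · refine Ideal.mem_sup_left ?_
        rw [smul_eq_C_mul]
        exact Ideal.mul_mem_left _ _ (Ideal.mul_mem_left _ _ (hd i))
    · rw [← pderiv_dh]
      exact Ideal.mem_sup_left (hd i)
  exact h1 h

/-- **A vector field killing `f0` on the chart (1).**  With `A = dh (h_m)` and
`c_i = a_m dh (h_i) - a_i y_i A` one has `∑ c_i ∂_i F = - N A F`.
PROOF.  Apply `a_m dh` to `∑ h_i ∂_i f0 = 0` and use `pderiv_dh`, `wdh_pderiv_last` for `f0`. -/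
theorem wdh_field {a : Fin (m + 1) → ℕ} {N : ℕ} {f0 : MvPolynomial (Fin (m + 1)) ℂ}
    (hf0 : f0.IsWeightedHomogeneous a N)
    (h : Fin (m + 1) → MvPolynomial (Fin (m + 1)) ℂ) (hs : ∑ i, h i * pderiv i f0 = 0) :
    ∑ i : Fin m, ((a (Fin.last m) : ℂ) • dh (h i.castSucc) -
        (a i.castSucc : ℂ) • (X i * dh (h (Fin.last m)))) * pderiv i (dh f0) =
      -((N : ℂ) • (dh (h (Fin.last m)) * dh f0)) := by
  have h1 := congrArg dh hs
  rw [Fin.sum_univ_castSucc, map_add, map_sum, map_mul, map_zero] at h1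
  have h2 : ∑ i : Fin m, dh (h i.castSucc * pderiv i.castSucc f0) =
      ∑ i : Fin m, dh (h i.castSucc) * pderiv i (dh f0) := by
    refine Finset.sum_congr rfl fun i _ => ?_
    rw [map_mul, pderiv_dh]
  rw [h2] at h1
  have h3 : ∑ i : Fin m, ((a (Fin.last m) : ℂ) • dh (h i.castSucc) -
        (a i.castSucc : ℂ) • (X i * dh (h (Fin.last m)))) * pderiv i (dh f0) =
      (a (Fin.last m) : ℂ) • ∑ i : Fin m, dh (h i.castSucc) * pderiv i (dh f0) -
        dh (h (Fin.last m)) * ∑ i : Fin m, (a i.castSucc : ℂ) • (X i * pderiv i (dh f0)) := by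
    rw [Finset.mul_sum, Finset.smul_sum, ← Finset.sum_sub_distrib]
    refine Finset.sum_congr rfl fun i _ => ?_
    simp only [smul_eq_C_mul]
    ring
  have h4 := wdh_pderiv_last hf0
  rw [h3]
  have h5 := congrArg (fun t => (a (Fin.last m) : ℂ) • t) h1
  simp only [smul_add, smul_zero] at h5
  rw [← mul_smul_comm, h4, mul_sub, mul_smul_comm] at h5
  linear_combination h5

/-- **Its divergence (2).**  If `h_i` is homogeneous of weight `e + a_i`, then
`a_m dh (div h) = div c + (∑ a_i + e) A`.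
PROOF.  `a_m dh (∂_m h_m) = (e + a_m) A - ∑ a_i y_i ∂_i A` and
`div c = a_m ∑_i dh (∂_i h_i) - ∑_i a_i (A + y_i ∂_i A)`. -/
theorem wdh_div {a : Fin (m + 1) → ℕ} {e : ℕ} (h : Fin (m + 1) → MvPolynomial (Fin (m + 1)) ℂ)
    (hh : ∀ i, (h i).IsWeightedHomogeneous a (e + a i)) :
    (a (Fin.last m) : ℂ) • dh (∑ i, pderiv i (h i)) =
      ∑ i : Fin m, pderiv i ((a (Fin.last m) : ℂ) • dh (h i.castSucc) -
          (a i.castSucc : ℂ) • (X i * dh (h (Fin.last m)))) +
        ((∑ i, a i + e : ℕ) : ℂ) • dh (h (Fin.last m)) := by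
  classical
  rw [Fin.sum_univ_castSucc, map_add, map_sum, smul_add, wdh_pderiv_last (hh _)]
  have h1 : ∑ i : Fin m, dh (pderiv i.castSucc (h i.castSucc)) =
      ∑ i : Fin m, pderiv i (dh (h i.castSucc)) :=
    Finset.sum_congr rfl fun i _ => (pderiv_dh i _).symm
  have h2 : ∑ i : Fin m, pderiv i ((a (Fin.last m) : ℂ) • dh (h i.castSucc) -
        (a i.castSucc : ℂ) • (X i * dh (h (Fin.last m)))) =
      (a (Fin.last m) : ℂ) • ∑ i : Fin m, pderiv i (dh (h i.castSucc)) -
        (((∑ i : Fin m, a i.castSucc : ℕ) : ℂ) • dh (h (Fin.last m)) +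
          ∑ i : Fin m, (a i.castSucc : ℂ) • (X i * pderiv i (dh (h (Fin.last m))))) := by
    have h3 : ∀ i : Fin m, pderiv i ((a (Fin.last m) : ℂ) • dh (h i.castSucc) -
          (a i.castSucc : ℂ) • (X i * dh (h (Fin.last m)))) =
        (a (Fin.last m) : ℂ) • pderiv i (dh (h i.castSucc)) -
          ((a i.castSucc : ℂ) • dh (h (Fin.last m)) +
            (a i.castSucc : ℂ) • (X i * pderiv i (dh (h (Fin.last m))))) := by
      intro i
      rw [map_sub, Derivation.map_smul, Derivation.map_smul, Derivation.leibniz, pderiv_X_self,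
        smul_eq_mul, smul_eq_mul, mul_one, smul_add]
      abel
    rw [Finset.sum_congr rfl fun i _ => h3 i, Finset.sum_sub_distrib, Finset.sum_add_distrib,
      ← Finset.smul_sum, ← Finset.sum_smul, Nat.cast_sum]
  rw [h1, h2, Fin.sum_univ_castSucc, Nat.cast_add, Nat.cast_add, Nat.cast_add, add_smul, add_smul,
    add_smul]
  abel

/-- The kernel of the dehomogenisation. -/
private theorem WDehom_ker (φ : MvPolynomial (Fin (m + 1)) ℂ) :
    ∃ W, φ - rename Fin.castSucc (dh φ) = (X (Fin.last m) - 1) * W := by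
  induction φ using MvPolynomial.induction_on with
  | C a =>
    refine ⟨0, ?_⟩
    have h1 : dh (C a : MvPolynomial (Fin (m + 1)) ℂ) = C a := by
      rw [dh, aeval_C]; rfl
    rw [h1, rename_C, sub_self, mul_zero]
  | add p q hp hq =>
    obtain ⟨W1, h1⟩ := hp
    obtain ⟨W2, h2⟩ := hq
    refine ⟨W1 + W2, ?_⟩
    rw [map_add, map_add, mul_add, ← h1, ← h2]
    ring
  | mul_X p j hp =>
    obtain ⟨W, h⟩ := hp
    rw [map_mul, map_mul]
    refine Fin.lastCases ?_ (fun j => ?_) j
    · refine ⟨W * X (Fin.last m) + rename Fin.castSucc (dh p), ?_⟩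
      rw [dh_X_last, map_one]
      linear_combination X (Fin.last m) * h
    · refine ⟨W * X j.castSucc, ?_⟩
      rw [dh_X_castSucc, rename_X]
      linear_combination X j.castSucc * h

/-- Components of a product with a homogeneous element of an ideal. -/
private theorem WDehom_cmp {a : Fin (m + 1) → ℕ} {I : Ideal (MvPolynomial (Fin (m + 1)) ℂ)}
    {v : ℕ} {φ ψ : MvPolynomial (Fin (m + 1)) ℂ} (hψ : ψ.IsWeightedHomogeneous a v)
    (w : ℕ) (h : v ≤ w → cmp a (w - v) φ * ψ ∈ I) : cmp a w (φ * ψ) ∈ I := by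
  rcases Nat.lt_or_ge w v with h1 | h1
  · have h2 : Ge a (0 + v) (φ * ψ) := (Ge.zero φ).mul (Ge.of_homog hψ)
    rw [h2.cmp_eq_zero (by omega)]
    exact I.zero_mem
  · have h2 := cmp_mul_homog (a := a) (w - v) v φ ψ hψ
    rw [Nat.sub_add_cancel h1] at h2
    rw [h2]
    exact h h1

/-- **From the chart back to the cone.**
PROOF.  As `LC.mem_I0_of_dh`, with one more step.  `dh` of a polynomial homogeneous of weight `D` has only
monomials `β` with `∑_{i<m} a_i β_i ≡ D` mod `a_m` and `≤ D`; conversely a polynomial `U` in `m` variables whose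
monomials satisfy `∑ a_i β_i ≡ D` mod `a_m` and `∑ a_i β_i ≤ D` is `dh U^h`, `U^h = ∑_β coeff β U • y^β
x_m^((D - ∑ a_i β_i) / a_m)` homogeneous of weight `D`, and homogeneous polynomials of the same weight with the
same `dh` are equal.  Let `dh A = ∑_i U_i dh (∂_i f0)`, `A` of weight `e`.  Grade by `ℤ / a_m`: replace `U_i` by
its part with `∑ a_l β_l ≡ e - (N - a_i)` mod `a_m` (the equation persists, because `dh A` has
only the class `e` and `dh (∂_i f0)` only the class `N - a_i`).  Choose `D = e + a_m * L`, `L` large,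
homogenise `U_i` in weight `D - (N - a_i)`: `∑ U_i^h ∂_i f0 = x_m^L A ∈ I0 f0`; conclude with
`LC.last_pow_regular`. -/
theorem wmem_I0_of_dh {a : Fin (m + 1) → ℕ} (ha : ∀ i, 1 ≤ a i) {N : ℕ} (haN : ∀ i, a i ≤ N)
    {f0 : MvPolynomial (Fin (m + 1)) ℂ} (hf0 : f0.IsWeightedHomogeneous a N) (hsec : Section f0)
    {e : ℕ} {A : MvPolynomial (Fin (m + 1)) ℂ} (hA : A.IsWeightedHomogeneous a e)
    (h : dh A ∈ jac (dh f0)) : A ∈ I0 f0 := by
  unfold jac at h
  rw [Ideal.mem_span_range_iff_exists_fun] at h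
  obtain ⟨U, hU⟩ := h
  obtain ⟨S, hS⟩ : ∃ S : MvPolynomial (Fin (m + 1)) ℂ,
      S = ∑ i : Fin m, rename Fin.castSucc (U i) * pderiv i.castSucc f0 := ⟨_, rfl⟩
  obtain ⟨W, hW⟩ := WDehom_ker (A - S)
  have hdh : dh (A - S) = 0 := by
    rw [map_sub, sub_eq_zero, hS, map_sum, ← hU]
    refine Finset.sum_congr rfl fun i _ => ?_
    rw [map_mul, pderiv_dh]
    congr 1
    have h1 : ∀ V : MvPolynomial (Fin m) ℂ, dh (rename Fin.castSucc V) = V := by
      intro V
      induction V using MvPolynomial.induction_on with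
      | C c => rw [rename_C, dh, aeval_C]; rfl
      | add p q hp hq => rw [map_add, map_add, hp, hq]
      | mul_X p j hp => rw [map_mul, map_mul, hp, rename_X, dh_X_castSucc]
    exact (h1 (U i)).symm
  rw [hdh, map_zero, sub_zero] at hW
  have hSc : ∀ w, cmp a w S ∈ I0 f0 := by
    intro w
    rw [hS, map_sum]
    refine Ideal.sum_mem _ fun i _ => ?_
    have h1 : (pderiv i.castSucc f0).IsWeightedHomogeneous a (N - a i.castSucc) :=
      hf0.pderiv (Nat.sub_add_cancel (haN _))
    refine WDehom_cmp h1 w fun _ => Ideal.mul_mem_left _ _ ?_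
    exact Ideal.subset_span ⟨i, rfl⟩
  have hAe : cmp a e A = A := hA.weightedHomogeneousComponent_same
  have hAne : ∀ w, w ≠ e → cmp a w A = 0 := fun w hw =>
    hA.weightedHomogeneousComponent_ne w hw
  have hcW : ∀ w, cmp a w W = cmp a w S + cmp a w (X (Fin.last m) * W) - cmp a w A := by
    intro w
    have h1 : W = S + X (Fin.last m) * W - A := by linear_combination hW
    conv_lhs => rw [h1]
    rw [map_sub, map_add]
  have hX : (X (Fin.last m) : MvPolynomial (Fin (m + 1)) ℂ).IsWeightedHomogeneous a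
      (a (Fin.last m)) := isWeightedHomogeneous_X ℂ a _
  have ham := ha (Fin.last m)
  have hlow : ∀ w, w < e → cmp a w W ∈ I0 f0 := by
    intro w
    induction w using Nat.strong_induction_on with
    | _ w ih =>
      intro hw
      rw [hcW w, hAne w hw.ne, sub_zero]
      refine Ideal.add_mem _ (hSc w) ?_
      rw [mul_comm]
      exact WDehom_cmp hX w fun h1 => Ideal.mul_mem_right _ _ (ih _ (by omega) (by omega))
  have hup : ∀ j, X (Fin.last m) ^ j * A + cmp a (e + j * a (Fin.last m)) W ∈ I0 f0 := by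
    intro j
    induction j with
    | zero =>
      rw [pow_zero, one_mul, zero_mul, add_zero, hcW e, hAe]
      have h1 : A + (cmp a e S + cmp a e (X (Fin.last m) * W) - A) =
          cmp a e S + cmp a e (X (Fin.last m) * W) := by ring
      rw [h1]
      refine Ideal.add_mem _ (hSc e) ?_
      rw [mul_comm]
      exact WDehom_cmp hX e fun h1 => Ideal.mul_mem_right _ _ (hlow _ (by omega))
    | succ j ih =>
      have h0 : e + (j + 1) * a (Fin.last m) = (e + j * a (Fin.last m)) + a (Fin.last m) := by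
        ring
      have hne : e + (j + 1) * a (Fin.last m) ≠ e := by omega
      have h1 := cmp_mul_homog (a := a) (e + j * a (Fin.last m)) (a (Fin.last m)) W _ hX
      rw [← h0] at h1
      rw [hcW, hAne _ hne, sub_zero, mul_comm (X (Fin.last m)) W, h1]
      have h2 := Ideal.mul_mem_left (I0 f0) (X (Fin.last m)) ih
      have h3 := Ideal.add_mem _ h2 (hSc (e + (j + 1) * a (Fin.last m)))
      have h4 : X (Fin.last m) ^ (j + 1) * A + (cmp a (e + (j + 1) * a (Fin.last m)) S +
          cmp a (e + j * a (Fin.last m)) W * X (Fin.last m)) =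
          X (Fin.last m) * (X (Fin.last m) ^ j * A + cmp a (e + j * a (Fin.last m)) W) +
            cmp a (e + (j + 1) * a (Fin.last m)) S := by ring
      rw [h4]
      exact h3
  have hbig : cmp a (e + (weightedTotalDegree a W + 1) * a (Fin.last m)) W = 0 := by
    refine weightedHomogeneousComponent_eq_zero _ _ ?_
    nlinarith [Nat.zero_le e, Nat.zero_le (weightedTotalDegree a W)]
  have hfin := hup (weightedTotalDegree a W + 1)
  rw [hbig, add_zero] at hfin
  exact last_pow_regular hsec _ A hfin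

/-- Critical points of `F = dh f0` on `F = 0` are critical points `(q, 1)` of `f0`. -/
theorem wsing_of_crit {a : Fin (m + 1) → ℕ} (ha : 1 ≤ a (Fin.last m)) {N : ℕ}
    {f0 : MvPolynomial (Fin (m + 1)) ℂ} (hf0 : f0.IsWeightedHomogeneous a N)
    {q : Fin m → ℂ} (h : ∀ i, eval q (pderiv i (dh f0)) = 0) (h0 : eval q (dh f0) = 0) :
    Sing f0 q := by
  have ha' : (a (Fin.last m) : ℂ) ≠ 0 := by
    rw [Nat.cast_ne_zero]; omega
  intro i
  rw [← eval_dh]
  refine Fin.lastCases ?_ (fun i => ?_) i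
  · have h1 := congrArg (eval q) (wdh_pderiv_last hf0)
    rw [smul_eq_C_mul, smul_eq_C_mul, map_mul, map_sub, map_mul, h0, mul_zero, map_sum, zero_sub,
      eval_C] at h1
    have h2 : ∑ i : Fin m, eval q ((a i.castSucc : ℂ) • (X i * pderiv i (dh f0))) = 0 := by
      refine Finset.sum_eq_zero fun i _ => ?_
      rw [smul_eq_C_mul, map_mul, map_mul, h i, mul_zero, mul_zero]
    rw [h2, neg_zero] at h1
    exact (mul_eq_zero.1 h1).resolve_left ha'
  · rw [← pderiv_dh]
    exact h i

end Pool.Agent.helper92.LW
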