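import Mathlib
import Pool.Agent.helper92.LC.ConeStokes
import Pool.Agent.helper92.LW.WCone
import Pool.Agent.helper92.LW.WDehom

/-!
# Project LW, module WConeStokes: Stokes functional, weighted version

Adapt `Pool.Agent.helper92.LC.ConeStokes`.
-/

set_option autoImplicit false

namespace Pool.Agent.helper92.LW

open MvPolynomial
open Pool.Agent.helper67.IF Pool.Agent.helper92.LC

variable {m : ℕ}

/-- **Stokes functional.**
PROOF.  `hasStokes_of_chain` for the weights `a`.  (V) is `hV`.  (K): let `j ≥ 1`, `h_i` homogeneous of weight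
`j N + a_i`, `∑ h_i ∂_i f0 = 0`, `div h ∈ jac f0`.  By `wkos_of_last` it is enough that `h_m ∈ I0 f0`, and by
`wmem_I0_of_dh` that `A = dh (h_m) ∈ jac F`, `F = dh f0`.  With `c_i = a_m dh (h_i) - a_i y_i A`: `wdh_field`
`∑ c_i ∂_i F = - N A F`, `wdh_div` (`e = j N`) and `wdh_jac` `div c + (∑ a_i + j N) A ∈ jac F ⊔ (F)`.
Apply `mem_of_local` as in `LC.hasStokes_cone`, `local_mem` with `n = ∑ i, a i`, `d = N`. -/
theorem whasStokes_cone (hm : 1 ≤ m) {a : Fin (m + 1) → ℕ} (ha : ∀ i, 1 ≤ a i) {N : ℕ}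
    (haN : ∀ i, a i < N) {f0 : MvPolynomial (Fin (m + 1)) ℂ}
    (hf0 : f0.IsWeightedHomogeneous a N) (hsec : Section f0)
    (hloc : ∀ q : Fin m → ℂ, Sing f0 q → ∃ (α : Fin m → ℕ) (M : ℕ) (g : MvPolynomial (Fin m) ℂ),
      WH (dh f0) q α M g ∧ NR (∑ i, a i) N α M g)
    (hV : ∀ h : Fin (m + 1) → MvPolynomial (Fin (m + 1)) ℂ,
      (∀ i, (h i).IsWeightedHomogeneous a (a i)) → ∑ i, h i * pderiv i f0 = 0 →
        ∑ i, pderiv i (h i) = 0) :
    HasStokes f0 := by
  have hN0 : (N : ℂ) ≠ 0 := by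
    have h0 := haN (Fin.last m)
    have : N ≠ 0 := by omega
    exact_mod_cast this
  have haN' : ∀ i, a i ≤ N := fun i => (haN i).le
  refine hasStokes_of_chain (a := a) (N := N) haN hf0 ?_ hV
  intro j h hj hh hs hdiv
  refine wkos_of_last ha haN' hf0 hsec hj h hh hs ?_
  refine wmem_I0_of_dh ha haN' hf0 hsec (hh (Fin.last m)) ?_
  obtain ⟨c, hc⟩ : ∃ c : Fin m → MvPolynomial (Fin m) ℂ, c = fun i =>
      (a (Fin.last m) : ℂ) • dh (h i.castSucc) -
        (a i.castSucc : ℂ) • (X i * dh (h (Fin.last m))) := ⟨_, rfl⟩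
  have h1 : ∑ i : Fin m, c i * pderiv i (dh f0) =
      -((N : ℂ) • (dh (h (Fin.last m)) * dh f0)) := by
    rw [hc]
    exact wdh_field hf0 h hs
  have h2 : ∑ i : Fin m, pderiv i (c i) +
      ((∑ i, a i + j * N : ℕ) : ℂ) • dh (h (Fin.last m)) ∈
        jac (dh f0) ⊔ Ideal.span {dh f0} := by
    have h3 := wdh_div h hh
    have h4 := wdh_jac (ha (Fin.last m)) hf0 hdiv
    rw [hc]
    rw [← h3, smul_eq_C_mul]
    exact Ideal.mul_mem_left _ _ h4
  apply mem_of_local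
  intro q
  by_cases h3 : ∀ i, eval q (pderiv i (dh f0)) = 0
  · by_cases h4 : eval q (dh f0) = 0
    · right
      intro K
      obtain ⟨α, M, g, hW, hNR⟩ := hloc q (wsing_of_crit (ha (Fin.last m)) hf0 h3 h4)
      exact local_mem hm hW hNR hj _ _ h1 h2 K
    · left
      refine ⟨dh f0, h4, ?_⟩
      have h5 : dh f0 * dh (h (Fin.last m)) =
          C (-(N : ℂ)⁻¹) * ∑ i : Fin m, c i * pderiv i (dh f0) := by
        rw [h1, smul_eq_C_mul, mul_neg, ← mul_assoc, ← mul_assoc, ← C_mul]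
        have : -(N : ℂ)⁻¹ * (N : ℂ) = -1 := by field_simp
        rw [this, C_neg, C_1]
        ring
      rw [h5]
      refine Ideal.mul_mem_left _ _ (Ideal.sum_mem _ fun i _ => Ideal.mul_mem_left _ _ ?_)
      exact Ideal.subset_span ⟨i, rfl⟩
  · push Not at h3
    obtain ⟨i, hi⟩ := h3
    left
    exact ⟨pderiv i (dh f0), hi, Ideal.mul_mem_right _ _ (Ideal.subset_span ⟨i, rfl⟩)⟩

end Pool.Agent.helper92.LW
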