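import Mathlib
import Pool.Agent.helper92.LC.Final
import Pool.Agent.helper92.LW.WConeStokes
import Pool.Agent.helper92.LW.WPointRoot

/-!
# Project LW, module WFinal: assembly (helper92)
-/

set_option autoImplicit false

namespace Pool.Agent.helper92.LW

open MvPolynomial Filter Topology Asymptotics
open Pool.Agent.helper67.ND Pool.Agent.helper67.IF Pool.Agent.helper92.LC

variable {m : ℕ}

/-- **The root `- (∑ a_i) / N`.** -/
theorem wcone_root (hm : 1 ≤ m) {a : Fin (m + 1) → ℕ} (ha : ∀ i, 1 ≤ a i) {N : ℕ}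
    (haN : ∀ i, a i < N) {f0 : MvPolynomial (Fin (m + 1)) ℂ}
    (hf0 : f0.IsWeightedHomogeneous a N) (hsec : Section f0)
    (hloc : ∀ q : Fin m → ℂ, Sing f0 q → ∃ (α : Fin m → ℕ) (M : ℕ) (g : MvPolynomial (Fin m) ℂ),
      WH (dh f0) q α M g ∧ NR (∑ i, a i) N α M g)
    (hV : ∀ h : Fin (m + 1) → MvPolynomial (Fin (m + 1)) ℂ,
      (∀ i, (h i).IsWeightedHomogeneous a (a i)) → ∑ i, h i * pderiv i f0 = 0 →
        ∑ i, pderiv i (h i) = 0)
    {f : (Fin (m + 1) → ℂ) → ℂ} (hf : AnalyticAt ℂ f 0) (hin : HasInitialForm a N f f0)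
    {b : Polynomial ℂ} (hb : IsBernstein f b) : b.eval (-((∑ i, a i : ℕ) : ℂ) / N) = 0 := by
  have hst := whasStokes_cone hm ha haN hf0 hsec hloc hV
  have h := initial_form (by omega) ha hf hf0 hin hst hb
  rw [Nat.cast_sum]
  exact h

/-- **The root `-1`.** -/
theorem wneg_one_root {n : ℕ} {a : Fin n → ℕ} {N : ℕ} (hN : 1 ≤ N)
    {f0 : MvPolynomial (Fin n) ℂ} (hf00 : f0 ≠ 0)
    {f : (Fin n → ℂ) → ℂ} (hf : AnalyticAt ℂ f 0) (ha : ∀ i, 1 ≤ a i)
    (hin : HasInitialForm a N f f0)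
    {b : Polynomial ℂ} (hb : IsBernstein f b) : b.eval (-1) = 0 := by
  have hf0z : f 0 = 0 := by
    obtain ⟨C, hC⟩ := (hin 0).bound
    have h1 := hC.self_of_nhds
    have e : (fun i : Fin n => (0 : ℂ) ^ a i * (0 : Fin n → ℂ) i) = 0 := by
      funext i; simp
    rw [e, zero_pow (by omega), zero_mul, sub_zero, norm_zero, zero_pow (by omega), norm_zero,
      mul_zero] at h1
    exact norm_le_zero_iff.1 h1
  refine Pool.Agent.helper67.LY.eval_neg_one hf hf0z ?_ b hb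
  intro hcon
  have hcon' : ∀ᶠ z in 𝓝 (0 : Fin n → ℂ), f z = 0 := by
    filter_upwards [hcon] with z hz
    exact not_not.1 hz
  apply hf00
  refine MvPolynomial.funext fun z => ?_
  rw [map_zero]
  by_contra hne
  have h1 : (fun t : ℂ => t ^ N * eval z f0) =O[𝓝 0] (fun t : ℂ => ‖t‖ ^ (N + 1)) := by
    refine (hin z).neg_left.congr' ?_ EventuallyEq.rfl
    filter_upwards [(tendsto_scal ha z).eventually hcon'] with t ht
    change f (fun i => t ^ a i * z i) = 0 at ht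
    rw [ht]; ring
  have h2 : (fun t : ℂ => (Polynomial.X ^ N : Polynomial ℂ).eval t) =O[𝓝 0]
      (fun t : ℂ => ‖t‖ ^ (N + 1)) := by
    have := h1.const_mul_left (eval z f0)⁻¹
    refine this.congr_left fun t => ?_
    rw [Polynomial.eval_pow, Polynomial.eval_X]
    field_simp
  have h3 := poly_coeff_zero_of_isBigO (N + 1) (Polynomial.X ^ N) h2 N (by omega)
  rw [Polynomial.coeff_X_pow, if_pos rfl] at h3
  exact one_ne_zero h3

/-- **Weighted Lê-Yomdin germs**: all candidate poles are roots. -/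
theorem wle_yomdin (hm : 1 ≤ m) {a : Fin (m + 1) → ℕ} (ha : ∀ i, 1 ≤ a i) {N k : ℕ}
    (haN : ∀ i, a i < N) (hk : 1 ≤ k) {f0 h : MvPolynomial (Fin (m + 1)) ℂ}
    (hf0 : f0.IsWeightedHomogeneous a N) (hsec : Section f0)
    (α : (Fin m → ℂ) → Fin m → ℕ) (M : (Fin m → ℂ) → ℕ)
    (g : (Fin m → ℂ) → MvPolynomial (Fin m) ℂ)
    (hW : ∀ q, Sing f0 q → WH (dh f0) q (α q) (M q) (g q))
    (hNR : ∀ q, Sing f0 q → NR (∑ i, a i) N (α q) (M q) (g q))
    (hV : ∀ v : Fin (m + 1) → MvPolynomial (Fin (m + 1)) ℂ,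
      (∀ i, (v i).IsWeightedHomogeneous a (a i)) → ∑ i, v i * pderiv i f0 = 0 →
        ∑ i, pderiv i (v i) = 0)
    (hh : h.IsWeightedHomogeneous a (N + k)) (hq : ∀ q, Sing f0 q → eval (pt q) h ≠ 0)
    {f : (Fin (m + 1) → ℂ) → ℂ} (hf : AnalyticAt ℂ f 0)
    (hO : ∀ z : Fin (m + 1) → ℂ,
      (fun t : ℂ => f (fun i => t ^ a i * z i) - (t ^ N * eval z f0 + t ^ (N + k) * eval z h))
        =O[𝓝 0] (fun t : ℂ => ‖t‖ ^ (N + k + 1)))
    {b : Polynomial ℂ} (hb : IsBernstein f b) :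
    b.eval (-1) = 0 ∧ b.eval (-((∑ i, a i : ℕ) : ℂ) / N) = 0 ∧
      ∀ q, Sing f0 q →
        (∀ j : ℕ, 1 ≤ j → (∑ i, a i) * M q ≠ N * (∑ i, α q i) + j * ((N + k) * M q)) →
        b.eval (-(((∑ i, a i) * M q + k * ∑ i, α q i : ℕ) : ℂ) / ((N + k) * M q : ℕ)) = 0 := by
  have hf00 : f0 ≠ 0 := by
    rintro rfl
    have h1 := hsec (Pi.single (Fin.castSucc ⟨0, hm⟩) 1) (by
      rw [Pi.single_eq_of_ne]
      exact (Fin.castSucc_lt_last _).ne') (fun i => by simp)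
    have h2 := congrFun h1 (Fin.castSucc ⟨0, hm⟩)
    simp at h2
  have hN : 1 ≤ N := by have := haN 0; omega
  have hin : HasInitialForm a N f f0 := by
    intro z
    have h1 : (fun t : ℂ => t ^ (N + k) * eval z h) =O[𝓝 0] (fun t : ℂ => ‖t‖ ^ (N + 1)) := by
      refine IsBigO.trans (g := fun t : ℂ => ‖t‖ ^ (N + k)) ?_
        (Pool.Agent.helper67.LY.isBigO_pow_mono (by omega))
      refine IsBigO.of_bound ‖eval z h‖ (Eventually.of_forall fun t => ?_)
      rw [norm_mul, norm_pow, norm_pow, norm_norm, mul_comm]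
    have h2 := (hO z).trans (Pool.Agent.helper67.LY.isBigO_pow_mono
      (by omega : N + 1 ≤ N + k + 1))
    refine (h2.add h1).congr_left fun t => ?_
    ring
  exact ⟨wneg_one_root hN hf00 hf ha hin hb, wcone_root hm ha haN hf0 hsec
    (fun q hs => ⟨α q, M q, g q, hW q hs, hNR q hs⟩) hV hf hin hb,
    fun q hs hex => wpoint_root hm ha hk hf0 hh hf hO (hW q hs) (hq q hs) hex hb⟩

end Pool.Agent.helper92.LW
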